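import Pool.Agent.Y314.CT.Stm

set_option autoImplicit false

/-!
# Project CT, job HOL: the holonomy of a coarse cocycle around a closed chain is trivial
-/

namespace Pool.Agent.Y517.CT

open Pool.Agent.Y314.CT

/-- Telescoping of a product of gauge transformed factors. -/
theorem prod_gauge {L : Type} [Group L] (u f f' : ℕ → L) (n : ℕ)
    (h : ∀ i, i < n → f' i = (u i)⁻¹ * f i * u (i + 1)) :
    ((List.range n).map f').prod = (u 0)⁻¹ * ((List.range n).map f).prod * u n := by
  induction n with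
  | zero => simp
  | succ n ih =>
    rw [List.range_succ, List.map_append, List.map_append, List.prod_append, List.prod_append,
      ih (fun i hi => h i (by omega))]
    simp only [List.map_cons, List.map_nil, List.prod_cons, List.prod_nil, mul_one]
    rw [h n (by omega)]
    group

/-- A point moves by at most one unit under a small change of the dilation. -/
theorem dd_dil_dil {t : ℝ} (g : NT t) (M : ℝ) (hM : 0 ≤ M) (hg : nn g ≤ M) (m : ℕ) (hm0 : 0 < m)
    (hm : 2 * (M + 1) ^ 2 ≤ (m : ℝ)) (x y : ℝ) (hx0 : 0 ≤ x) (hx1 : x ≤ 1) (hy0 : 0 ≤ y)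
    (hy1 : y ≤ 1) (hxy : |y - x| ≤ 1 / (m : ℝ)) : dd (dil x g) (dil y g) ≤ 1 := by
  have hmp : (0 : ℝ) < m := by exact_mod_cast hm0
  have hb := bt_pos t
  have hv : ((dil x g)⁻¹ * dil y g).v = (y - x) • g.v := by
    rw [inv_mul_v, dil_v, dil_v, sub_smul]
  have hz : ((dil x g)⁻¹ * dil y g).z = (y ^ 2 - x ^ 2) • g.z := by
    rw [inv_mul_z, dil_z, dil_z, dil_v, dil_v, om_smul_left, om_smul_right, om_self, sub_smul]
    simp
  have hinv : 1 / (m : ℝ) * (2 * (M + 1) ^ 2) ≤ 1 := by
    rw [div_mul_eq_mul_div, one_mul, div_le_one hmp]; exact hm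
  have hi0 : 0 ≤ 1 / (m : ℝ) := by positivity
  unfold dd
  refine nn_le zero_le_one ?_ ?_
  · rw [hv, norm_smul, Real.norm_eq_abs]
    have h1 : ‖g.v‖ ≤ M := (norm_v_le g).trans hg
    calc |y - x| * ‖g.v‖ ≤ 1 / (m : ℝ) * M :=
          mul_le_mul hxy h1 (norm_nonneg _) hi0
      _ ≤ 1 / (m : ℝ) * (2 * (M + 1) ^ 2) := by
          refine mul_le_mul_of_nonneg_left ?_ hi0
          nlinarith
      _ ≤ 1 := hinv
  · rw [hz, norm_smul, Real.norm_eq_abs]
    have h1 : ‖g.z‖ ≤ (3 + |t|) * M ^ 2 := by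
      refine (norm_z_le g).trans ?_
      refine mul_le_mul_of_nonneg_left ?_ hb.le
      exact pow_le_pow_left₀ (nn_nonneg g) hg 2
    have h2 : |y ^ 2 - x ^ 2| ≤ 1 / (m : ℝ) * 2 := by
      have h3 : y ^ 2 - x ^ 2 = (y - x) * (y + x) := by ring
      rw [h3, abs_mul]
      refine mul_le_mul hxy ?_ (abs_nonneg _) hi0
      rw [abs_of_nonneg (by linarith)]
      linarith
    calc |y ^ 2 - x ^ 2| * ‖g.z‖ ≤ 1 / (m : ℝ) * 2 * ((3 + |t|) * M ^ 2) :=
          mul_le_mul h2 h1 (norm_nonneg _) (by positivity)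
      _ = (3 + |t|) * (1 / (m : ℝ) * (2 * M ^ 2)) := by ring
      _ ≤ (3 + |t|) * (1 / (m : ℝ) * (2 * (M + 1) ^ 2)) := by
          refine mul_le_mul_of_nonneg_left ?_ hb.le
          refine mul_le_mul_of_nonneg_left ?_ hi0
          nlinarith
      _ ≤ (3 + |t|) * 1 ^ 2 := by
          refine mul_le_mul_of_nonneg_left ?_ hb.le
          simpa using hinv

theorem t_HOL : S_HOL := by
  intro t r hr L _ c hc n p hp hpn
  have h1 : ∀ a, c a a = 1 := by
    intro a
    have := hc a a a (by simp; linarith) (by simp; linarith) (by simp; linarith)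
    exact mul_eq_left.1 this
  obtain ⟨M, hM0, hM⟩ : ∃ M : ℝ, 0 ≤ M ∧ ∀ i, i ≤ n → nn (p i) ≤ M := by
    refine ⟨∑ i ∈ Finset.range (n + 1), nn (p i), Finset.sum_nonneg fun i _ => nn_nonneg _, ?_⟩
    intro i hi
    exact Finset.single_le_sum (f := fun i => nn (p i)) (fun i _ => nn_nonneg _)
      (Finset.mem_range.2 (by omega))
  obtain ⟨m, hm⟩ := exists_nat_ge (2 * (M + 1) ^ 2)
  have hmp : (0 : ℝ) < m := lt_of_lt_of_le (by positivity) hm
  have hm0 : 0 < m := by exact_mod_cast hmp
  have step : ∀ x y : ℝ, 0 ≤ x → x ≤ 1 → 0 ≤ y → y ≤ 1 → |y - x| ≤ 1 / (m : ℝ) →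
      ((List.range n).map fun i => c (dil x (p i)) (dil x (p (i + 1)))).prod = 1 →
      ((List.range n).map fun i => c (dil y (p i)) (dil y (p (i + 1)))).prod = 1 := by
    intro x y hx0 hx1 hy0 hy1 hxy hx
    have hd : ∀ i, i ≤ n → dd (dil x (p i)) (dil y (p i)) ≤ 1 := fun i hi =>
      dd_dil_dil (p i) M hM0 (hM i hi) m hm0 hm x y hx0 hx1 hy0 hy1 hxy
    have key := prod_gauge (fun i => c (dil x (p i)) (dil y (p i)))
      (fun i => c (dil x (p i)) (dil x (p (i + 1))))
      (fun i => c (dil y (p i)) (dil y (p (i + 1)))) n ?_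
    · rw [key, hx, hpn, mul_one, inv_mul_cancel]
    · intro i hi
      have e1 : dd (dil x (p i)) (dil x (p (i + 1))) ≤ r := by
        rw [dd_dil hx0]
        have := hp i hi
        have h0 := dd_nonneg (p i) (p (i + 1))
        nlinarith
      have e2 : dd (dil y (p i)) (dil y (p (i + 1))) ≤ r := by
        rw [dd_dil hy0]
        have := hp i hi
        have h0 := dd_nonneg (p i) (p (i + 1))
        nlinarith
      have e3 := hd i (by omega)
      have e4 := hd (i + 1) (by omega)
      have e5 : dd (dil x (p i)) (dil y (p (i + 1))) ≤ r + 1 :=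
        (dd_triangle _ (dil x (p (i + 1))) _).trans (by linarith)
      have a1 := hc (dil x (p i)) (dil y (p i)) (dil y (p (i + 1))) (by linarith) (by linarith) e5
      have a2 := hc (dil x (p i)) (dil x (p (i + 1))) (dil y (p (i + 1))) (by linarith)
        (by linarith) e5
      show c (dil y (p i)) (dil y (p (i + 1))) = (c (dil x (p i)) (dil y (p i)))⁻¹ *
        c (dil x (p i)) (dil x (p (i + 1))) * c (dil x (p (i + 1))) (dil y (p (i + 1)))
      rw [mul_assoc, a2, ← a1]
      group
  have all : ∀ j : ℕ, j ≤ m →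
      ((List.range n).map fun i => c (dil ((j : ℝ) / m) (p i))
        (dil ((j : ℝ) / m) (p (i + 1)))).prod = 1 := by
    intro j
    induction j with
    | zero =>
      intro _
      simp [h1]
    | succ j ih =>
      intro hj
      have hj' : ((j + 1 : ℕ) : ℝ) ≤ m := by exact_mod_cast hj
      push_cast at hj'
      refine step ((j : ℝ) / m) (((j + 1 : ℕ) : ℝ) / m) (by positivity) ?_ (by positivity) ?_ ?_
        (ih (by omega))
      · rw [div_le_one hmp]; linarith
      · rw [div_le_one hmp]; push_cast; linarith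
      · rw [← sub_div]
        push_cast
        rw [add_sub_cancel_left, abs_of_nonneg (by positivity)]
  have := all m le_rfl
  rw [div_self hmp.ne'] at this
  simpa using this

end Pool.Agent.Y517.CT
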